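import Pool.Agent.Helper81.Sus3.Goals
import Pool.Agent.Helper81.Sus2.EDC
import Pool.Agent.Helper81.Sus2.SND

/-!
# Packet SUS3-EDC: completeness of the edges
-/

namespace Pool.Agent.Helper33.Sus3

open Pool.Agent.Helper65.LinSpace Pool.Agent.Helper78.Mpc Pool.Agent.Helper28.Ram Finset Filter
open Pool.Agent.Helper28.Sus (gf chs rc lt_ne)
open Pool.Agent.Helper81.Sus2 hiding bad edge SND_stmt CMP_stmt SIL_stmt EDS_stmt EDC_stmt
open Pool.Agent.Helper81.Sus3
open Pool.Agent.Helper31.SusD (nxt)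
open Pool.Agent.Helper81.Sus2H8 (run_shift exists_bits card_toNat exists_word ro_num eq_one)
open Pool.Agent.Helper81.Sus2H94 (ro_not num_lt_pow length_le_of_num_lt)

theorem mem_ro {A : NBM} {w y : List Bool} {g : ℕ → Bool} (t : ℕ) {i : List Bool}
    (hi : i.head? = some false) : (A.conf w y g t).2 i = A.mem0 w y i := by
  induction t with
  | zero => rfl
  | succ t ih =>
    show A.upd _ i ((A.conf w y g t).2 i) = _
    rw [ih]
    unfold NBM.upd
    rw [if_neg]
    rintro ⟨_, h⟩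
    exact h hi

theorem conf_shift (A : NBM) (w y : List Bool) (g : ℕ → Bool) (s t : ℕ) :
    A.run (fun i => g (s + i)) (A.conf w y g s) t = A.conf w y g (s + t) :=
  run_shift A g _ s t

theorem known_mono {A : NBM} {w y : List Bool} {g : ℕ → Bool} {P : Prm} {c t₀ T T' : ℕ}
    (h : T ≤ T') {i : List Bool} (hi : KnownN A w y g P c t₀ T i) :
    KnownN A w y g P c t₀ T' i := by
  rcases hi with h1 | h1 | ⟨u, h1, h2, h3, h4⟩
  · exact Or.inl h1
  · exact Or.inr (Or.inl h1)
  · exact Or.inr (Or.inr ⟨u, h1, h2.trans h, h3, h4⟩)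

theorem known_iff {A : NBM} {w y : List Bool} {g : ℕ → Bool} {P : Prm} {c t₀ T e : ℕ}
    (hE : Exact A w y g P c t₀ T e) (hT : t₀ ≤ T) (τ : ℕ) (i : List Bool)
    (hi : i.length ≤ P.S) :
    Known A P e (A.run (fun j => g (T + j)) (A.conf w y g T)) τ i ↔
      KnownN A w y g P c t₀ (T + τ) i := by
  obtain ⟨_, _, hE3⟩ := hE
  constructor
  · rintro (h1 | h1 | ⟨v, h1, h2, h3, h4⟩)
    · exact Or.inl h1
    · by_cases hh : i.head? = some false
      · exact Or.inl hh
      · by_contra hcon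
        refine h1 ((hE3 i hi hh).2 fun hk => hcon ?_)
        exact known_mono (by omega) hk
    · rw [conf_shift] at h3 h4
      exact Or.inr (Or.inr ⟨T + v, by omega, by omega, h3, h4⟩)
  · intro hk
    by_cases hh : i.head? = some false
    · exact Or.inl hh
    by_cases hkT : KnownN A w y g P c t₀ T i
    · right; left
      rw [(hE3 i hi hh).1 hkT]
      exact (num_pos _).ne'
    · rcases hk with h1 | h1 | ⟨u, h1, h2, h3, h4⟩
      · exact Or.inl h1
      · exact absurd (Or.inr (Or.inl h1)) hkT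
      · have hu : T < u := by
          by_contra hcon
          exact hkT (Or.inr (Or.inr ⟨u, h1, by omega, h3, h4⟩))
        refine Or.inr (Or.inr ⟨u - T, by omega, by omega, ?_, ?_⟩)
        · rw [conf_shift, show T + (u - T) = u by omega]
          exact h3
        · rw [conf_shift, show T + (u - T) = u by omega]
          exact h4

theorem rep_of_exact {A : NBM} {w y : List Bool} {g : ℕ → Bool} {P : Prm} {c t₀ T e r : ℕ}
    (hE : Exact A w y g P c t₀ T e) (hfit : A.Fits w y g r P.S P.Z) (hT : T ≤ r) :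
    Rep A w y P e (A.conf w y g T) := by
  obtain ⟨h1, h2, h3⟩ := hE
  refine Or.inr ⟨h1, h2.symm, (hfit T hT).1, fun i hi => mem_ro T hi, fun i hi hh => ?_⟩
  by_cases hk : KnownN A w y g P c t₀ T i
  · exact Or.inr ((h3 i hi hh).1 hk)
  · exact Or.inl ((h3 i hi hh).2 hk)

theorem cond_ne {P : Prm} {m d a : ℕ} :
    ifz a 1 (lt01 0 d * ((1 - Prm.ro a) * ifz m (lt01 0 (P.cl d a)) 1)) ≠ 0 ↔
      a = 0 ∨ (d ≠ 0 ∧ Prm.ro a = 0 ∧ (m ≠ 0 ∨ P.cl d a ≠ 0)) := by
  unfold ifz
  by_cases ha : a = 0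
  · simp [ha]
  · rw [if_neg ha, mul_ne_zero_iff, mul_ne_zero_iff, lt_ne]
    have e1 : 1 - Prm.ro a ≠ 0 ↔ Prm.ro a = 0 := by omega
    rw [e1]
    by_cases hm : m = 0
    · rw [if_pos hm, lt_ne]
      simp [ha, hm]
    · rw [if_neg hm]
      simp [ha, hm]

theorem bad_iff {P : Prm} {F : ℕ → ℕ → ℕ → ℕ → ℕ → ℕ → ℕ → ℕ} {m c p d p' Y τ a : ℕ} :
    bad P F m c p d p' Y τ a = 0 ↔
      ((a = 0 ∨ (d ≠ 0 ∧ Prm.ro a = 0 ∧ (m ≠ 0 ∨ P.cl d a ≠ 0))) → F c p d p' Y τ a = 1) := by
  rw [← cond_ne]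
  unfold bad
  set q := ifz a 1 (lt01 0 d * ((1 - Prm.ro a) * ifz m (lt01 0 (P.cl d a)) 1))
  by_cases hq : q = 0
  · rw [hq]
    simp [ifz]
  · unfold ifz
    rw [if_neg hq]
    unfold eq01
    by_cases hF : F c p d p' Y τ a = 1
    · simp [hF]
    · simp [hF, hq]

theorem all_iff {P : Prm} {F : ℕ → ℕ → ℕ → ℕ → ℕ → ℕ → ℕ → ℕ} {m c p d p' Y τ : ℕ} :
    all P F m c p d p' Y τ ≠ 0 ↔ ∀ a < 2 ^ (P.S + 1), bad P F m c p d p' Y τ a = 0 := by
  unfold all
  have : ∀ x : ℕ, eq01 x 0 ≠ 0 ↔ x = 0 := by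
    intro x
    unfold eq01
    split_ifs with h
    · simp [h]
    · simp [h]
  rw [this, sum_eq_zero_iff]
  simp only [mem_range]

theorem iC_mk (P : Prm) {p e : ℕ} (hp : p ≤ P.u) : iC P (p + (P.u + 1) * e) = e := by
  unfold iC
  rw [Nat.add_mul_div_left _ _ (by omega), Nat.div_eq_of_lt (by omega), zero_add]

theorem iP_mk (P : Prm) {p e : ℕ} (hp : p ≤ P.u) : iP P (p + (P.u + 1) * e) = p := by
  unfold iP
  rw [Nat.add_mul_mod_self_left, Nat.mod_eq_of_lt (by omega)]

theorem iP_le (P : Prm) (e : ℕ) : iP P e ≤ P.u := by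
  unfold iP
  have := Nat.mod_lt e (show P.u + 1 > 0 by omega)
  omega

/-- **SUS3-EDC.** -/
theorem edc (h1 : CMP_stmt) (h2 : GRD_stmt) : EDC_stmt := by
  intro A w y P hCod hSV F x M g r t₀ t₁ c d hFs hFc h01 h1r hfit hgs hbd hMV hc0 hRep hlive
    hst hd0 hd
  classical
  set N := t₁ - t₀ with hN
  set pc : ℕ → ℕ := fun t => ∑ i ∈ range t, (A.ask (A.conf w y g (t₀ + i)).1).toNat with hpc
  have hpcN : pc N ≤ P.u := by
    have h := card_toNat (fun i => A.ask (A.conf w y g i).1) t₀ t₁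
    rw [hpc]
    dsimp only
    rw [h]
    exact hgs
  have hpcm : ∀ s t, s ≤ t → pc s ≤ pc t := fun s t h =>
    sum_le_sum_of_subset (range_mono h)
  have hpcu : ∀ t ≤ N, pc t ≤ P.u := fun t ht => (hpcm t N ht).trans hpcN
  obtain ⟨Y, hY, hbits⟩ := exists_bits (fun i => A.ask (A.conf w y g (t₀ + i)).1)
    (fun i => g (t₀ + i)) N P.u hpcN
  have hpca : ∀ t j, pc t + ∑ i ∈ range j,
      (A.ask (A.run (fun j => g (t₀ + t + j)) (A.conf w y g (t₀ + t)) i).1).toNat =
        pc (t + j) := by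
    intro t j
    rw [hpc]
    dsimp only
    rw [sum_range_add]
    congr 1
    refine sum_congr rfl fun i _ => ?_
    rw [conf_shift, add_assoc]
  -- the windows
  have hcmp : ∀ (e t τ d' p' a : ℕ), Exact A w y g P c t₀ (t₀ + t) e → t + τ ≤ N → τ ≤ M →
      a < 2 ^ (P.S + 1) →
      ((((d' = 0 → (A.conf w y g (t₀ + t + τ)).1.head? = some true) ∧
        (d' ≠ 0 → P.cq d' = num (A.conf w y g (t₀ + t + τ)).1 ∧
          (p' ≤ P.u → p' = pc (t + τ)) ∧
          (a ≠ 0 → ∀ i : List Bool, num i = a →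
            (KnownN A w y g P c t₀ (t₀ + t + τ) i →
              P.cl d' a = num ((A.conf w y g (t₀ + t + τ)).2 i)) ∧
            (¬KnownN A w y g P c t₀ (t₀ + t + τ) i → P.cl d' a = 0)))) →
          A.msgs w y g (t₀ + t) (t₀ + t + τ) ≤ x → F e (pc t) d' p' Y τ a = 1) ∧
      (F e (pc t) d' p' Y τ a = 1 →
        ((d' = 0 → (A.conf w y g (t₀ + t + τ)).1.head? = some true) ∧
        (d' ≠ 0 → P.cq d' = num (A.conf w y g (t₀ + t + τ)).1 ∧
          (p' ≤ P.u → p' = pc (t + τ)) ∧
          (a ≠ 0 → ∀ i : List Bool, num i = a →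
            (KnownN A w y g P c t₀ (t₀ + t + τ) i →
              P.cl d' a = num ((A.conf w y g (t₀ + t + τ)).2 i)) ∧
            (¬KnownN A w y g P c t₀ (t₀ + t + τ) i → P.cl d' a = 0)))))) := by
    intro e t τ d' p' a hE htN hτM ha
    have hτV : τ < 2 ^ P.V := lt_of_le_of_lt hτM hMV
    have hFC : FC A P e (pc t) d' p' a τ (fun j => g (t₀ + t + j)) (A.conf w y g (t₀ + t)) ↔
        ((d' = 0 → (A.conf w y g (t₀ + t + τ)).1.head? = some true) ∧
        (d' ≠ 0 → P.cq d' = num (A.conf w y g (t₀ + t + τ)).1 ∧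
          (p' ≤ P.u → p' = pc (t + τ)) ∧
          (a ≠ 0 → ∀ i : List Bool, num i = a →
            (KnownN A w y g P c t₀ (t₀ + t + τ) i →
              P.cl d' a = num ((A.conf w y g (t₀ + t + τ)).2 i)) ∧
            (¬KnownN A w y g P c t₀ (t₀ + t + τ) i → P.cl d' a = 0)))) := by
      unfold FC
      rw [conf_shift, hpca]
      refine and_congr Iff.rfl (forall_congr' fun _ => and_congr Iff.rfl
        (and_congr Iff.rfl (forall_congr' fun _ => forall_congr' fun i =>
          forall_congr' fun hi => ?_)))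
      have hil : i.length ≤ P.S := length_le_of_num_lt (by rw [hi]; exact ha)
      rw [known_iff hE (by omega) τ i hil]
    obtain ⟨m1, m2, m3⟩ := h1 A w y P hCod hSV e (pc t) d' p' a τ Y
      (fun j => g (t₀ + t + j)) (A.conf w y g (t₀ + t)) hE.1
      (rep_of_exact hE hfit (by omega))
      (fun j hj => by
        rw [conf_shift]
        exact hfit (t₀ + t + j) (by omega))
      (fun j hj => by
        rw [known_iff hE (by omega) j _ (by
          rw [conf_shift]
          exact (hfit (t₀ + t + j) (by omega)).2.1)]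
        rw [conf_shift]
        exact hlive (t₀ + t + j) (by omega) (by omega))
      (fun j hj hask => by
        rw [hpca]
        rw [conf_shift] at hask
        have := hbits (t + j) (by omega) (by rw [← add_assoc]; exact hask)
        rw [← add_assoc] at this
        exact this)
      (by rw [hpca]; exact hpcu _ htN)
      (le_trans (by gcongr) hbd) ha
    rw [hFC] at m1
    refine ⟨fun hfc hx => hFc _ _ _ _ _ _ _ ha hτV (m1 hfc) hτM (m3.trans (le_trans ?_ hx)),
      fun hF1 => ?_⟩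
    · unfold NBM.msgs
      refine Set.ncard_le_ncard_of_injOn (fun j => t₀ + t + j) ?_ ?_ ?_
      · rintro j ⟨k1, k2⟩
        refine ⟨by omega, by omega, ?_⟩
        rw [conf_shift] at k2
        exact k2
      · intro a _ b _ hab
        dsimp only at hab
        omega
      · exact (Set.finite_Iio (t₀ + t + τ)).subset fun i hi => hi.2.1
    · obtain ⟨T, hT⟩ := hFs _ _ _ _ _ _ _ ha hτV hF1
      have := m2 T hT
      rw [hFC] at this
      exact this
  -- the start
  have hE0 : Exact A w y g P c t₀ t₀ c := by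
    rcases hRep with ⟨h, _⟩ | ⟨_, k2, _, _, k5⟩
    · exact absurd h hc0
    refine ⟨hc0, k2.symm, fun i hi hh => ⟨fun hk => ?_, fun hk => ?_⟩⟩
    · rcases hk with h | h | ⟨u, h, h', _⟩
      · exact absurd h hh
      · exact (k5 i hi hh).resolve_left h
      · omega
    · by_contra hcl
      exact hk (Or.inr (Or.inl hcl))
  -- the greedy sequence
  obtain ⟨j, hj, hne, τ, hτ, hfin⟩ := h2.2 (fun e τ => fin P F d Y e τ) (chk P F Y) (2 ^ P.V)
    (iZ P) ((P.u + 1) * c) N M
    (fun e t => t ≤ N ∧ Exact A w y g P c t₀ (t₀ + t) (iC P e) ∧ iP P e = pc t)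
    (by unfold iZ; positivity)
    (by
      have e1 : (P.u + 1) * c = 0 + (P.u + 1) * c := by rw [zero_add]
      refine ⟨Nat.zero_le _, ?_, ?_⟩
      · rw [e1, iC_mk P (Nat.zero_le _)]
        exact hE0
      · rw [e1, iP_mk P (Nat.zero_le _)]
        rfl)
    (by
      rintro e t ⟨_, hE, _⟩ h0
      apply hE.1
      rw [h0]
      unfold iC
      exact Nat.zero_div _)
    (by
      rintro e t τ e' ⟨_, hE, hp⟩ ht hτM hchk
      unfold chk at hchk
      rw [mul_ne_zero_iff, mul_ne_zero_iff, lt_ne, lt_ne, all_iff] at hchk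
      obtain ⟨k1, k2, k3⟩ := hchk
      have hpos : 0 < 2 ^ (P.S + 1) := by positivity
      have key : ∀ a < 2 ^ (P.S + 1), (a = 0 ∨ Prm.ro a = 0) →
          F (iC P e) (pc t) (iC P e') (iP P e') Y τ a = 1 := by
        intro a ha hor
        rw [← hp]
        refine bad_iff.1 (k3 a ha) ?_
        rcases hor with h | h
        · exact Or.inl h
        · exact Or.inr ⟨k2, h, Or.inl one_ne_zero⟩
      have r0 := ((hcmp (iC P e) t τ (iC P e') (iP P e') 0 hE ht hτM hpos).2
        (key 0 hpos (Or.inl rfl))).2 k2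
      refine ⟨⟨ht, ⟨k2, ?_, fun i hi hh => ?_⟩, ?_⟩, Nat.pos_of_ne_zero k1⟩
      · rw [← add_assoc]
        exact r0.1
      · have hai := num_lt_pow hi
        have r1 := ((hcmp (iC P e) t τ (iC P e') (iP P e') (num i) hE ht hτM hai).2
          (key _ hai (Or.inr (ro_not hh)))).2 k2
        have r2 := r1.2.2 (num_pos _).ne' i rfl
        rw [← add_assoc]
        exact r2
      · exact r0.2.1 (iP_le P _))
    (by
      rintro e t ⟨htN, hE, hp⟩ _
      by_cases hex : ∃ u, t₀ + t < u ∧ u < t₁ ∧ ∃ e' < 2 + 2 ^ (P.S + 1) * 2 ^ (P.u + 1),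
          Exact A w y g P c t₀ u e'
      · right
        obtain ⟨U, ⟨hU1, hU2, e', he', hE'⟩, hmin⟩ : ∃ U, (t₀ + t < U ∧ U < t₁ ∧
            ∃ e' < 2 + 2 ^ (P.S + 1) * 2 ^ (P.u + 1), Exact A w y g P c t₀ U e') ∧
            ∀ u < U, ¬(t₀ + t < u ∧ u < t₁ ∧
              ∃ e' < 2 + 2 ^ (P.S + 1) * 2 ^ (P.u + 1), Exact A w y g P c t₀ u e') :=
          ⟨Nat.find hex, Nat.find_spec hex, fun j hj => Nat.find_min hex hj⟩
        obtain ⟨s1, s2⟩ := hst (t₀ + t) U (by omega) hU1.le hU2.le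
          (fun u hu hu' e₂ he₂ hE₂ => hmin u hu' ⟨hu, by omega, e₂, he₂, hE₂⟩)
        obtain ⟨τ, rfl⟩ := Nat.exists_eq_add_of_le hU1.le
        have hτ0 : 0 < τ := by omega
        have hτM : τ ≤ M := by omega
        have htτ : t + τ ≤ N := by omega
        have hpu : pc (t + τ) ≤ P.u := hpcu _ htτ
        refine ⟨τ, lt_of_le_of_lt hτM hMV, hτM, htτ, pc (t + τ) + (P.u + 1) * e', ?_, ?_⟩
        · unfold iZ
          have : (P.u + 1) * (e' + 1) ≤ (P.u + 1) * (2 + 2 ^ (P.S + 1) * 2 ^ (P.u + 1)) :=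
            Nat.mul_le_mul_left _ he'
          rw [mul_add, mul_one] at this
          omega
        · unfold chk
          rw [iC_mk P hpu, iP_mk P hpu, mul_ne_zero_iff, mul_ne_zero_iff, lt_ne, lt_ne, all_iff]
          refine ⟨hτ0.ne', hE'.1, fun a ha => bad_iff.2 fun hor => ?_⟩
          rw [hp]
          refine (hcmp (iC P e) t τ e' (pc (t + τ)) a hE htτ hτM ha).1
            ⟨fun h => absurd h hE'.1, fun _ => ⟨hE'.2.1, fun _ => rfl, fun ha0 i hi => ?_⟩⟩ s1
          have hil : i.length ≤ P.S := length_le_of_num_lt (by rw [hi]; exact ha)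
          have hro : Prm.ro a = 0 := by
            rcases hor with h | h
            · exact absurd h ha0
            · exact h.2.1
          have hh : i.head? ≠ some false := by
            intro hh
            rw [← hi, ro_num hh] at hro
            exact one_ne_zero hro
          have := hE'.2.2 i hil hh
          rw [hi] at this
          exact this
      · left
        obtain ⟨s1, s2⟩ := hst (t₀ + t) t₁ (by omega) (by omega) le_rfl
          (fun u hu hu' e₂ he₂ hE₂ => hex ⟨u, hu, hu', e₂, he₂, hE₂⟩)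
        obtain ⟨τ, hτ⟩ := Nat.exists_eq_add_of_le (show t₀ + t ≤ t₁ by omega)
        have hτM : τ ≤ M := by omega
        have htτ : t + τ ≤ N := by omega
        refine ⟨τ, lt_of_le_of_lt hτM hMV, ?_⟩
        show fin P F d Y e τ ≠ 0
        unfold fin
        rw [all_iff, hp]
        intro a ha
        refine bad_iff.2 fun hor => ?_
        rw [hτ] at s1
        refine (hcmp (iC P e) t τ d (P.u + 1) a hE htτ hτM ha).1 ⟨fun h => ?_, fun h => ?_⟩ s1
        · obtain ⟨q1, q2⟩ := hd0 h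
          rw [← hτ, q1]
          exact q2
        · obtain ⟨q1, q2, q3⟩ := hd h
          rcases q2 with ⟨e1, _⟩ | ⟨_, e2, e3, e4, e5⟩
          · exact absurd e1 h
          rw [← hτ]
          refine ⟨e2.symm, fun h => by omega, fun ha0 i hi => ?_⟩
          have hil : i.length ≤ P.S := length_le_of_num_lt (by rw [hi]; exact ha)
          obtain ⟨hro, hcl⟩ : Prm.ro a = 0 ∧ P.cl d a ≠ 0 := by
            rcases hor with h | h
            · exact absurd h ha0
            · exact ⟨h.2.1, h.2.2.resolve_left (fun h => h rfl)⟩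
          have hh : i.head? ≠ some false := by
            intro hh
            rw [← hi, ro_num hh] at hro
            exact one_ne_zero hro
          rw [← hi] at hcl ⊢
          exact ⟨fun _ => (e5 i hil hh).resolve_left hcl, fun hk => absurd (q3 i hil hh hcl) hk⟩)
  unfold edge
  have hX : lt01 0 c * (ifz d 1 (lt01 1 d) *
    lt01 0 (∑ Y ∈ range (2 ^ P.u), ∑ j ∈ range (iZ P + 1), ∑ τ ∈ range (2 ^ P.V),
      lt01 0 (seq P F Y c j) * fin P F d Y (seq P F Y c j) τ)) ≠ 0 := by
    refine Nat.mul_ne_zero (lt_ne.2 hc0) (Nat.mul_ne_zero ?_ (lt_ne.2 ?_))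
    · by_cases h0 : d = 0
      · unfold ifz
        rw [if_pos h0]
        exact one_ne_zero
      · obtain ⟨k1, _, _⟩ := hd h0
        unfold ifz
        rw [if_neg h0]
        unfold lt01
        rw [if_pos (by omega)]
        exact one_ne_zero
    · intro h
      have k1 := (sum_eq_zero_iff.1 h) Y (mem_range.2 hY)
      have k2 := (sum_eq_zero_iff.1 k1) j (mem_range.2 hj)
      have k3 := (sum_eq_zero_iff.1 k2) τ (mem_range.2 hτ)
      exact Nat.mul_ne_zero (lt_ne.2 hne) hfin k3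
  omega

end Pool.Agent.Helper33.Sus3
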